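import Pool.Agent.W2helper93.SM.PR

/-!
# Project SM (helper93), piece GW: from bounded support to all of `H¹`
-/

set_option autoImplicit false

open MeasureTheory Set Filter Topology

namespace Pool.Agent.W2helper93.SMP

noncomputable section

open LTd (pd WGradC)
open Pool.Agent.W2helper90.SM

/-- Fatou's lemma for iterated integrals with a power -/
theorem fatou {X Y : Type*} [MeasurableSpace X] [MeasurableSpace Y] {μ : Measure X} {ν : Measure Y}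
    [SFinite μ] [SFinite ν] {f : ℕ → X × Y → ENNReal} {F : X × Y → ENNReal}
    (hf : ∀ n, AEMeasurable (f n) (μ.prod ν))
    (hF : ∀ z, Tendsto (fun n => f n z) atTop (𝓝 (F z))) {p : ℝ} (hp : 0 ≤ p) {c : ENNReal}
    (hc : c ≠ ⊤) {B : ℕ → ENNReal} {b : ENNReal}
    (hB : ∀ n, c * ∫⁻ x, (∫⁻ y, f n (x, y) ∂ν) ^ p ∂μ ≤ B n) (hb : Tendsto B atTop (𝓝 b)) :
    c * ∫⁻ x, (∫⁻ y, F (x, y) ∂ν) ^ p ∂μ ≤ b := by
  have h1 : ∀ᵐ x ∂μ, ∀ n, AEMeasurable (fun y => f n (x, y)) ν := by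
    rw [ae_all_iff]
    intro n
    filter_upwards [(hf n).aestronglyMeasurable.prodMk_left] with x hx
    exact hx.aemeasurable
  have h2 : ∀ᵐ x ∂μ, (∫⁻ y, F (x, y) ∂ν) ^ p ≤
      liminf (fun n => (∫⁻ y, f n (x, y) ∂ν) ^ p) atTop := by
    filter_upwards [h1] with x hx
    have e1 : ∫⁻ y, F (x, y) ∂ν ≤ liminf (fun n => ∫⁻ y, f n (x, y) ∂ν) atTop := by
      have e2 : ∀ y, F (x, y) = liminf (fun n => f n (x, y)) atTop :=
        fun y => (hF (x, y)).liminf_eq.symm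
      simp only [e2]
      exact lintegral_liminf_le' hx
    have e3 := (ENNReal.monotone_rpow_of_nonneg hp).map_liminf_of_continuousAt (F := atTop)
      (fun n => ∫⁻ y, f n (x, y) ∂ν) (ENNReal.continuous_rpow_const.continuousAt)
    calc (∫⁻ y, F (x, y) ∂ν) ^ p ≤ (liminf (fun n => ∫⁻ y, f n (x, y) ∂ν) atTop) ^ p :=
          ENNReal.rpow_le_rpow e1 hp
      _ = _ := e3
  have h3 : ∫⁻ x, (∫⁻ y, F (x, y) ∂ν) ^ p ∂μ ≤
      liminf (fun n => ∫⁻ x, (∫⁻ y, f n (x, y) ∂ν) ^ p ∂μ) atTop :=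
    (lintegral_mono_ae h2).trans (lintegral_liminf_le' fun n =>
      ((hf n).lintegral_prod_right').pow_const p)
  have hm : Monotone fun t : ENNReal => c * t := fun s t hst => mul_le_mul_right hst c
  have h4 := hm.map_liminf_of_continuousAt (F := atTop)
    (fun n => ∫⁻ x, (∫⁻ y, f n (x, y) ∂ν) ^ p ∂μ) (ENNReal.continuous_const_mul hc).continuousAt
  calc c * ∫⁻ x, (∫⁻ y, F (x, y) ∂ν) ^ p ∂μ
      ≤ c * liminf (fun n => ∫⁻ x, (∫⁻ y, f n (x, y) ∂ν) ^ p ∂μ) atTop := hm h3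
    _ = liminf (fun n => c * ∫⁻ x, (∫⁻ y, f n (x, y) ∂ν) ^ p ∂μ) atTop := h4
    _ ≤ liminf B atTop := liminf_le_liminf (Eventually.of_forall hB)
    _ = b := hb.liminf_eq

theorem fx_cont {m n : ℕ} : Continuous (fx : (Fin (m + n) → ℝ) → Fin m → ℝ) :=
  continuous_pi fun _ => continuous_apply _

theorem fy_cont {m n : ℕ} : Continuous (fy : (Fin (m + n) → ℝ) → Fin n → ℝ) :=
  continuous_pi fun _ => continuous_apply _

theorem fx_append {m n : ℕ} (x : Fin m → ℝ) (y : Fin n → ℝ) : fx (Fin.append x y) = x := by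
  funext i
  simp [fx]

theorem dt_cont {n : ℕ} (ξ : Fin n → ℝ) : Continuous (dt ξ) :=
  continuous_finsetSum _ fun j _ => continuous_const.mul (continuous_apply j)

/-- the condition for the truncated family -/
theorem occ {m n N : ℕ} {A : ℝ} (hA : 0 ≤ A) {u : Fin N → (Fin (m + n) → ℝ) → ℂ}
    {w : (Fin (m + n) → ℝ) → ENNReal} (hw : Measurable w) (hBW : BW w u)
    (hsec : ∀ᵐ x : Fin m → ℝ, ∫⁻ y : Fin n → ℝ, w (Fin.append x y) ≤ ENNReal.ofReal A)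
    {χ : (Fin (m + n) → ℝ) → ℝ} (hχ : Continuous χ) (hs : HasCompactSupport χ)
    (h01 : ∀ x, 0 ≤ χ x ∧ χ x ≤ 1) : OccC A (fun a z => (χ z : ℂ) * u a z) := by
  intro ξ φ hφ hφs
  obtain ⟨M, hM⟩ := hφ.bounded_above_of_compact_support hφs
  obtain ⟨R, hR⟩ := supp_ball hs
  have hM' : ∀ x, |φ x| ≤ M := hM
  obtain ⟨ψ, hψ⟩ : ∃ ψ : (Fin (m + n) → ℝ) → ℂ, ψ = fun z =>
    ((φ (fx z) : ℝ) : ℂ) * Complex.exp ((dt ξ (fy z) : ℝ) * Complex.I) * (χ z : ℂ) := ⟨_, rfl⟩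
  have hψc : Continuous ψ := by
    rw [hψ]
    exact ((Complex.continuous_ofReal.comp (hφ.comp fx_cont)).mul (Complex.continuous_exp.comp
      ((Complex.continuous_ofReal.comp ((dt_cont ξ).comp fy_cont)).mul continuous_const))).mul
      (Complex.continuous_ofReal.comp hχ)
  have hψn : ∀ z, ‖ψ z‖ = |φ (fx z)| * χ z := by
    intro z
    rw [hψ]
    simp only [norm_mul, Complex.norm_real, Complex.norm_exp_ofReal_mul_I, mul_one]
    rw [Real.norm_eq_abs, Real.norm_eq_abs, abs_of_nonneg (h01 z).1]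
  have hψ2 : ∀ z, ‖ψ z‖ ^ 2 ≤ φ (fx z) ^ 2 := by
    intro z
    rw [hψn, mul_pow, sq_abs]
    have : χ z ^ 2 ≤ 1 := by nlinarith [(h01 z).1, (h01 z).2]
    nlinarith [sq_nonneg (φ (fx z))]
  have h1 := hBW ψ hψc.measurable ⟨M, fun z => by
      rw [hψn]
      have := hM' (fx z)
      nlinarith [(h01 z).1, (h01 z).2, abs_nonneg (φ (fx z))]⟩ ⟨R, fun z hz => by
      rw [hψ]
      simp only
      rw [hR z hz]
      simp⟩
  have h2 : ∑ a, ‖∫ z, ((φ (fx z) : ℝ) : ℂ) * Complex.exp ((dt ξ (fy z) : ℝ) * Complex.I) *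
      ((χ z : ℂ) * u a z)‖ ^ 2 = ∑ a, ‖∫ z, ψ z * u a z‖ ^ 2 := by
    refine Finset.sum_congr rfl fun a _ => ?_
    congr 2
    refine integral_congr_ae (Eventually.of_forall fun z => ?_)
    rw [hψ]
    simp only
    ring
  have hi : Integrable (fun x => φ x ^ 2) volume := by
    have h3 : HasCompactSupport fun x => φ x ^ 2 := hφs.comp_left (g := fun t : ℝ => t ^ 2) (by simp)
    exact (hφ.pow 2).integrable_of_hasCompactSupport h3
  have h0 : 0 ≤ ∫ x, φ x ^ 2 := integral_nonneg fun x => sq_nonneg _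
  have hmx : Measurable fun z : Fin (m + n) → ℝ => w z * ENNReal.ofReal (φ (fx z) ^ 2) :=
    hw.mul ((hφ.comp fx_cont).pow 2).measurable.ennreal_ofReal
  have h4 : ∫⁻ z, w z * ENNReal.ofReal (‖ψ z‖ ^ 2) ≤ ENNReal.ofReal (A * ∫ x, φ x ^ 2) := by
    calc ∫⁻ z, w z * ENNReal.ofReal (‖ψ z‖ ^ 2)
        ≤ ∫⁻ z, w z * ENNReal.ofReal (φ (fx z) ^ 2) :=
          lintegral_mono fun z => mul_le_mul_right (ENNReal.ofReal_le_ofReal (hψ2 z)) _
      _ = ∫⁻ x : Fin m → ℝ, ∫⁻ y : Fin n → ℝ, w (Fin.append x y) *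
            ENNReal.ofReal (φ (fx (Fin.append x y)) ^ 2) := Q_tonelli hmx.aemeasurable
      _ = ∫⁻ x : Fin m → ℝ, (∫⁻ y : Fin n → ℝ, w (Fin.append x y)) * ENNReal.ofReal (φ x ^ 2) := by
          refine lintegral_congr fun x => ?_
          simp only [fx_append]
          rw [lintegral_mul_const' _ _ ENNReal.ofReal_ne_top]
      _ ≤ ∫⁻ x : Fin m → ℝ, ENNReal.ofReal A * ENNReal.ofReal (φ x ^ 2) := by
          refine lintegral_mono_ae ?_
          filter_upwards [hsec] with x hx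
          exact mul_le_mul_left hx _
      _ = ENNReal.ofReal A * ∫⁻ x : Fin m → ℝ, ENNReal.ofReal (φ x ^ 2) :=
          lintegral_const_mul' _ _ ENNReal.ofReal_ne_top
      _ = ENNReal.ofReal A * ENNReal.ofReal (∫ x, φ x ^ 2) := by
          rw [ofReal_integral_eq_lintegral_ofReal hi (Eventually.of_forall fun x => sq_nonneg _)]
      _ = _ := by rw [ENNReal.ofReal_mul hA]
  rw [h2]
  have h5 := h1.trans h4
  rwa [ENNReal.ofReal_le_ofReal_iff (mul_nonneg hA h0)] at h5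

/-- the energy of the truncated function -/
theorem energy {d : ℕ} {u : (Fin d → ℝ) → ℂ} {g : Fin d → (Fin d → ℝ) → ℂ} (hu : WGradC u g)
    {χ : (Fin d → ℝ) → ℝ} (hχ : ContDiff ℝ 1 χ) (h01 : ∀ x, 0 ≤ χ x ∧ χ x ≤ 1) {C ρ : ℝ}
    (hρ : 1 ≤ ρ) (hC : ∀ k x, |pd k χ x| ≤ C / ρ) (i : Fin d) :
    ∫ z, ‖(χ z : ℂ) * g i z + (pd i χ z : ℂ) * u z‖ ^ 2 ≤
      (1 + 1 / ρ) * (∫ z, ‖g i z‖ ^ 2) + 2 * C ^ 2 / ρ * ∫ z, ‖u z‖ ^ 2 := by
  have hρ0 : 0 < ρ := by linarith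
  have i1 : Integrable (fun z => ‖g i z‖ ^ 2) volume := (hu.g2 i).integrable_norm_pow two_ne_zero
  have i2 : Integrable (fun z => ‖u z‖ ^ 2) volume := hu.f2.integrable_norm_pow two_ne_zero
  rw [← integral_const_mul, ← integral_const_mul, ← integral_add (i1.const_mul _) (i2.const_mul _)]
  refine integral_mono_of_nonneg (Eventually.of_forall fun z => by positivity)
    ((i1.const_mul _).add (i2.const_mul _)) (Eventually.of_forall fun z => ?_)
  simp only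
  obtain ⟨x, hx⟩ : ∃ x : ℝ, x = ‖g i z‖ := ⟨_, rfl⟩
  obtain ⟨y, hy⟩ : ∃ y : ℝ, y = ‖u z‖ := ⟨_, rfl⟩
  have hx0 : 0 ≤ x := hx ▸ norm_nonneg _
  have hy0 : 0 ≤ y := hy ▸ norm_nonneg _
  have hC0 : 0 ≤ C / ρ := (abs_nonneg _).trans (hC i z)
  have h1 : ‖(χ z : ℂ) * g i z + (pd i χ z : ℂ) * u z‖ ≤ x + C / ρ * y := by
    refine (norm_add_le _ _).trans ?_
    rw [norm_mul, norm_mul, Complex.norm_real, Complex.norm_real, ← hx, ← hy, Real.norm_eq_abs,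
      Real.norm_eq_abs, abs_of_nonneg (h01 z).1]
    have e1 : χ z * x ≤ 1 * x := mul_le_mul_of_nonneg_right (h01 z).2 hx0
    have e2 : |pd i χ z| * y ≤ C / ρ * y := mul_le_mul_of_nonneg_right (hC i z) hy0
    linarith
  rw [← hx, ← hy]
  have h2 : (x + C / ρ * y) ^ 2 ≤ (1 + 1 / ρ) * x ^ 2 + (1 + ρ) * (C / ρ * y) ^ 2 := by
    have e3 : (1 + 1 / ρ) * x ^ 2 + (1 + ρ) * (C / ρ * y) ^ 2 - (x + C / ρ * y) ^ 2 =
        (x - ρ * (C / ρ * y)) ^ 2 / ρ := by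
      field_simp
      ring
    have e4 : 0 ≤ (x - ρ * (C / ρ * y)) ^ 2 / ρ := by positivity
    linarith
  have h3 : (1 + ρ) * (C / ρ * y) ^ 2 ≤ 2 * C ^ 2 / ρ * y ^ 2 := by
    have e5 : 2 * C ^ 2 / ρ * y ^ 2 - (1 + ρ) * (C / ρ * y) ^ 2 =
        (ρ - 1) * (C / ρ * y) ^ 2 := by
      field_simp
      ring
    have e6 : 0 ≤ (ρ - 1) * (C / ρ * y) ^ 2 := mul_nonneg (by linarith) (sq_nonneg _)
    linarith
  calc ‖(χ z : ℂ) * g i z + (pd i χ z : ℂ) * u z‖ ^ 2 ≤ (x + C / ρ * y) ^ 2 :=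
        pow_le_pow_left₀ (norm_nonneg _) h1 2
    _ ≤ _ := by linarith

end

end Pool.Agent.W2helper93.SMP

namespace Pool.Agent.W2helper90.SM

noncomputable section

open LTd (pd WGradC)
open Pool.Agent.W2helper93.SMP

theorem t_GW (h1 : S_APP) (_h2 : S_FUB) : S_GW := by
  intro m n hm hn A hA N u g hu w hw hBW hsec
  obtain ⟨C, hC⟩ := LTd.cutoff (m + n)
  have hρ : ∀ k : ℕ, (1 : ℝ) ≤ (k : ℝ) + 1 := fun k => by
    linarith [(Nat.cast_nonneg k : (0 : ℝ) ≤ k)]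
  choose χ hχ1 hχs h01 hχe hχp using fun k : ℕ => hC ((k : ℝ) + 1) (hρ k)
  have hC0 : ∀ k i z, |pd i (χ k) z| ≤ C / ((k : ℝ) + 1) := hχp
  have hχa : ∀ k z, |χ k z| ≤ 1 := fun k z => by
    rw [abs_of_nonneg (h01 k z).1]
    exact (h01 k z).2
  obtain ⟨E, hE⟩ : ∃ E : ℝ, E = ∑ a, ∑ i, ∫ z, ‖g a i z‖ ^ 2 := ⟨_, rfl⟩
  obtain ⟨D, hD⟩ : ∃ D : ℝ, D = ∑ a, ∑ _i : Fin (m + n), ∫ z, ‖u a z‖ ^ 2 := ⟨_, rfl⟩
  obtain ⟨T, hT⟩ : ∃ T : ℕ → ℝ, T = fun k : ℕ =>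
    (1 + 1 / ((k : ℝ) + 1)) * E + 2 * C ^ 2 / ((k : ℝ) + 1) * D := ⟨_, rfl⟩
  have hTt : Tendsto T atTop (𝓝 E) := by
    have e1 : Tendsto (fun k : ℕ => 1 / ((k : ℝ) + 1)) atTop (𝓝 0) :=
      tendsto_one_div_add_atTop_nhds_zero_nat
    have e2 := ((e1.const_add 1).mul_const E).add (e1.const_mul (2 * C ^ 2 * D))
    have e3 : T = fun k : ℕ => (1 + 1 / ((k : ℝ) + 1)) * E + 2 * C ^ 2 * D * (1 / ((k : ℝ) + 1)) := by
      rw [hT]
      funext k
      ring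
    rw [e3]
    simpa using e2
  have hb : Tendsto (fun k => ENNReal.ofReal (A ^ (2 / ((m + n : ℕ) : ℝ))) * ENNReal.ofReal (T k))
      atTop (𝓝 (ENNReal.ofReal (A ^ (2 / ((m + n : ℕ) : ℝ))) * ENNReal.ofReal E)) :=
    ((ENNReal.continuous_const_mul ENNReal.ofReal_ne_top).tendsto _).comp
      ((ENNReal.continuous_ofReal.tendsto _).comp hTt)
  rw [← hE]
  have key := fatou (μ := (volume : Measure (Fin m → ℝ))) (ν := (volume : Measure (Fin n → ℝ)))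
    (f := fun k z => ENNReal.ofReal (∑ a, ‖(χ k (Fin.append z.1 z.2) : ℂ) *
      u a (Fin.append z.1 z.2)‖ ^ 2))
    (F := fun z => ENNReal.ofReal (∑ a, ‖u a (Fin.append z.1 z.2)‖ ^ 2))
    (p := 1 + 2 / ((m + n : ℕ) : ℝ)) (c := ENNReal.ofReal (LTd.Kcl (m + n)))
    (fun k => ?_) (fun z => ?_) (by positivity) ENNReal.ofReal_ne_top (fun k => ?_) hb
  · exact key
  · have e1 : AEMeasurable (fun z => ENNReal.ofReal (∑ a, ‖(χ k z : ℂ) * u a z‖ ^ 2)) volume := by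
      refine AEMeasurable.ennreal_ofReal (Finset.aemeasurable_fun_sum _ fun a _ => ?_)
      exact ((memLp_mul (hu a).f2 (hχ1 k).continuous (hχa k)).1.norm.pow 2).aemeasurable
    exact e1.comp_quasiMeasurePreserving (Q_mp m n).quasiMeasurePreserving
  · refine tendsto_const_nhds.congr' ?_
    obtain ⟨K, hK⟩ := exists_nat_ge ‖Fin.append z.1 z.2‖
    filter_upwards [eventually_ge_atTop K] with k hk
    have e2 : χ k (Fin.append z.1 z.2) = 1 := hχe k _ (by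
      have : (K : ℝ) ≤ k := by exact_mod_cast hk
      linarith)
    simp only [e2, Complex.ofReal_one, one_mul]
  · obtain ⟨R, hR⟩ := supp_ball (hχs k)
    have e3 := h1 m n hm hn A (max R 1) hA (lt_of_lt_of_le one_pos (le_max_right _ _)) N
      (fun a z => (χ k z : ℂ) * u a z)
      (fun a i z => (χ k z : ℂ) * g a i z + (pd i (χ k) z : ℂ) * u a z)
      (fun a => wg_mul (hu a) (hχ1 k) (hχa k) (hC0 k))
      (fun a z hz => by
        rw [hR z (lt_of_le_of_lt (le_max_left _ _) hz)]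
        simp)
      (occ hA.le hw hBW hsec (hχ1 k).continuous (hχs k) (h01 k))
    refine e3.trans (mul_le_mul_right (ENNReal.ofReal_le_ofReal ?_) _)
    rw [hT, hE, hD]
    simp only
    rw [Finset.mul_sum, Finset.mul_sum, ← Finset.sum_add_distrib]
    refine Finset.sum_le_sum fun a _ => ?_
    rw [Finset.mul_sum, Finset.mul_sum, ← Finset.sum_add_distrib]
    exact Finset.sum_le_sum fun i _ => energy (hu a) (hχ1 k) (h01 k) (hρ k) (hC0 k) i

end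

end Pool.Agent.W2helper90.SM
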