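import Pool.Agent.W2helper93.SM.GW

/-!
# Project SM (helper93), piece MOL: mollification in one direction
-/

set_option autoImplicit false

open MeasureTheory Set Filter Topology

namespace Pool.Agent.W2helper93.SMP

noncomputable section

open LTd (pd WGradC)
open Pool.Agent.W2helper90.SM

/-- the multiplier -/
def hq {m : ℕ} (h : ℝ → ℝ) (q : ℝ) (z : Fin (m + 1) → ℝ) : ℝ := h (z (Fin.last m) - q)

/-- the last coordinate of the unit vectors -/
def dl {m : ℕ} (i : Fin (m + 1)) : ℝ := (Pi.single i (1 : ℝ) : Fin (m + 1) → ℝ) (Fin.last m)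

theorem dl_sum {m : ℕ} : ∑ i : Fin (m + 1), dl i ^ 2 = 1 := by
  unfold dl
  rw [Finset.sum_eq_single (Fin.last m)]
  · simp
  · intro i _ hi
    rw [Pi.single_eq_of_ne (Ne.symm hi)]
    simp
  · intro h
    exact absurd (Finset.mem_univ _) h

theorem hq_contDiff {m : ℕ} {h : ℝ → ℝ} (hh : ContDiff ℝ 1 h) (q : ℝ) :
    ContDiff ℝ 1 (hq (m := m) h q) :=
  hh.comp ((contDiff_apply ℝ ℝ (Fin.last m)).sub contDiff_const)

theorem hq_pd {m : ℕ} {h : ℝ → ℝ} (hh : ContDiff ℝ 1 h) (q : ℝ) (i : Fin (m + 1))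
    (z : Fin (m + 1) → ℝ) : pd i (hq h q) z = deriv h (z (Fin.last m) - q) * dl i := by
  have h1 : HasDerivAt h (deriv h (z (Fin.last m) - q)) (z (Fin.last m) - q) :=
    (hh.differentiable (by norm_num) _).hasDerivAt
  have h2 : HasFDerivAt (fun z : Fin (m + 1) → ℝ => z (Fin.last m) - q)
      (ContinuousLinearMap.proj (R := ℝ) (φ := fun _ : Fin (m + 1) => ℝ) (Fin.last m)) z :=
    ((ContinuousLinearMap.proj (R := ℝ) (φ := fun _ : Fin (m + 1) => ℝ)
      (Fin.last m)).hasFDerivAt).sub_const q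
  have h3 : HasFDerivAt (hq (m := m) h q) (deriv h (z (Fin.last m) - q) •
      (ContinuousLinearMap.proj (R := ℝ) (φ := fun _ : Fin (m + 1) => ℝ) (Fin.last m))) z :=
    h1.comp_hasFDerivAt z h2
  unfold pd
  rw [h3.fderiv]
  rfl

theorem nsq (a b : ℝ) (G U : ℂ) : ‖(a : ℂ) * G + (b : ℂ) * U‖ ^ 2 =
    a ^ 2 * ‖G‖ ^ 2 + 2 * (a * b) * (G.re * U.re + G.im * U.im) + b ^ 2 * ‖U‖ ^ 2 := by
  rw [← Complex.normSq_eq_norm_sq, ← Complex.normSq_eq_norm_sq, ← Complex.normSq_eq_norm_sq,
    Complex.normSq_apply, Complex.normSq_apply, Complex.normSq_apply]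
  simp
  ring

theorem int_sq {h : ℝ → ℝ} (hc : Continuous h) (hs : HasCompactSupport h) :
    Integrable (fun t => h t ^ 2) volume := by
  have h1 : HasCompactSupport fun t => h t ^ 2 := by
    have h2 : (fun t => h t ^ 2) = fun t => h t * h t := by
      funext t
      ring
    rw [h2]
    exact hs.mul_right
  exact (hc.pow 2).integrable_of_hasCompactSupport h1

/-- the one dimensional integral -/
theorem int1 {h : ℝ → ℝ} (hh : ContDiff ℝ 1 h) (hs : HasCompactSupport h)
    (h2n : ∫ t, h t ^ 2 = 1) (G U : ℂ) (δ s : ℝ) :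
    Integrable (fun q => ‖(h (s - q) : ℂ) * G + ((deriv h (s - q) * δ : ℝ) : ℂ) * U‖ ^ 2) volume ∧
    ∫ q, ‖(h (s - q) : ℂ) * G + ((deriv h (s - q) * δ : ℝ) : ℂ) * U‖ ^ 2 =
      ‖G‖ ^ 2 + δ ^ 2 * ‖U‖ ^ 2 * ∫ t, deriv h t ^ 2 := by
  have hc : Continuous h := hh.continuous
  have hd : Continuous (deriv h) := hh.continuous_deriv (by norm_num)
  have hds : HasCompactSupport (deriv h) := hs.deriv
  have i1 : Integrable (fun t => h t ^ 2) volume := int_sq hc hs
  have i2 : Integrable (fun t => h t * deriv h t) volume :=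
    (hc.mul hd).integrable_of_hasCompactSupport hs.mul_right
  have i3 : Integrable (fun t => deriv h t ^ 2) volume := int_sq hd hds
  have e0 : ∫ t, h t * deriv h t = 0 := by
    have e1 : ∫ t, 2 * (h t * deriv h t) = 0 := by
      refine integral_eq_zero_of_hasDerivAt_of_integrable (f := fun t => h t ^ 2) (fun t => ?_)
        (i2.const_mul 2) i1
      have e2 : HasDerivAt h (deriv h t) t := (hh.differentiable (by norm_num) _).hasDerivAt
      have e3 : HasDerivAt (fun t => h t ^ 2) (((2 : ℕ) : ℝ) * h t ^ (2 - 1) * deriv h t) t :=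
        e2.pow 2
      have e4 : 2 * (h t * deriv h t) = ((2 : ℕ) : ℝ) * h t ^ (2 - 1) * deriv h t := by
        push_cast
        ring
      rw [e4]
      exact e3
    rw [integral_const_mul] at e1
    linarith
  obtain ⟨F, hF⟩ : ∃ F : ℝ → ℝ, F = fun t => ‖G‖ ^ 2 * h t ^ 2 +
    2 * (G.re * U.re + G.im * U.im) * δ * (h t * deriv h t) + δ ^ 2 * ‖U‖ ^ 2 * deriv h t ^ 2 :=
    ⟨_, rfl⟩
  have hFi : Integrable F volume := by
    rw [hF]
    exact ((i1.const_mul _).add (i2.const_mul _)).add (i3.const_mul _)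
  have e4 : (fun q => ‖(h (s - q) : ℂ) * G + ((deriv h (s - q) * δ : ℝ) : ℂ) * U‖ ^ 2) =
      fun q => F (s - q) := by
    funext q
    rw [nsq, hF]
    simp only
    ring
  rw [e4]
  refine ⟨hFi.comp_sub_left s, ?_⟩
  rw [integral_sub_left_eq_self F volume s, hF]
  have j1 : Integrable (fun t => ‖G‖ ^ 2 * h t ^ 2 +
      2 * (G.re * U.re + G.im * U.im) * δ * (h t * deriv h t)) volume :=
    (i1.const_mul _).add (i2.const_mul _)
  rw [integral_add j1 (i3.const_mul _), integral_add (i1.const_mul _) (i2.const_mul _),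
    integral_const_mul, integral_const_mul, integral_const_mul, h2n, e0]
  ring

theorem append_last {m : ℕ} (x : Fin m → ℝ) (y : Fin 1 → ℝ) :
    Fin.append x y (Fin.last m) = y 0 := by
  have : Fin.last m = Fin.natAdd m (0 : Fin 1) := by
    ext
    simp
  rw [this, Fin.append_right]

theorem append_add {m : ℕ} (x : Fin m → ℝ) (q t : ℝ) :
    Fin.append x (fun _ : Fin 1 => q + t) =
      Fin.append x (fun _ : Fin 1 => q) + Pi.single (Fin.last m) t := by
  have hl : Fin.last m = Fin.natAdd m (0 : Fin 1) := by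
    ext
    simp
  funext i
  refine Fin.addCases (fun i => ?_) (fun j => ?_) i
  · rw [Pi.add_apply, Fin.append_left, Fin.append_left, hl, Pi.single_eq_of_ne, add_zero]
    intro h
    have := congrArg Fin.val h
    simp at this
    omega
  · rw [Pi.add_apply, Fin.append_right, Fin.append_right]
    have : j = 0 := Subsingleton.elim _ _
    rw [this, hl, Pi.single_eq_same]

theorem lint1 (F : ℝ → ENNReal) : ∫⁻ y : Fin 1 → ℝ, F (y 0) = ∫⁻ s, F s :=
  (volume_preserving_funUnique (Fin 1) ℝ).lintegral_comp_emb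
    (MeasurableEquiv.measurableEmbedding _) F

end

end Pool.Agent.W2helper93.SMP

namespace Pool.Agent.W2helper90.SM

noncomputable section

open LTd (pd WGradC)
open Pool.Agent.W2helper93.SMP

theorem t_MOL (h1 : S_GW) (h2 : S_BES) (_h3 : S_FUB) : S_MOL := by
  intro m hm N u g hu ho h hh hs h2n
  have hc : Continuous h := hh.continuous
  have hd : Continuous (deriv h) := hh.continuous_deriv (by norm_num)
  have hds : HasCompactSupport (deriv h) := hs.deriv
  obtain ⟨M, hM⟩ := hc.bounded_above_of_compact_support hs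
  obtain ⟨M', hM'⟩ := hd.bounded_above_of_compact_support hds
  have hMa : ∀ t, |h t| ≤ M := hM
  have hMa' : ∀ t, |deriv h t| ≤ M' := hM'
  have hdl : ∀ i : Fin (m + 1), |dl i| ≤ 1 := by
    intro i
    have e1 : dl i ^ 2 ≤ ∑ i : Fin (m + 1), dl i ^ 2 :=
      Finset.single_le_sum (f := fun i : Fin (m + 1) => dl i ^ 2) (fun _ _ => sq_nonneg _)
        (Finset.mem_univ i)
    rw [dl_sum] at e1
    exact abs_le_one_iff_mul_self_le_one.2 (by nlinarith)
  -- the inequality for every `q`
  obtain ⟨p, hp⟩ : ∃ p : ℝ, p = 1 + 2 / ((m + 1 : ℕ) : ℝ) := ⟨_, rfl⟩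
  have hp0 : 0 ≤ p := by rw [hp]; positivity
  obtain ⟨G, hG⟩ : ∃ G : (Fin (m + 1) → ℝ) → ENNReal, G = fun z =>
    (∫⁻ t : ℝ, ENNReal.ofReal (h t ^ 2 * ∑ a, ‖u a (z + Pi.single (Fin.last m) t)‖ ^ 2)) ^ p :=
    ⟨_, rfl⟩
  obtain ⟨Φ, hΦ⟩ : ∃ Φ : ℝ → (Fin (m + 1) → ℝ) → ℝ, Φ = fun q z => ∑ a, ∑ i,
    ‖(h (z (Fin.last m) - q) : ℂ) * g a i z +
      ((deriv h (z (Fin.last m) - q) * dl i : ℝ) : ℂ) * u a z‖ ^ 2 := ⟨_, rfl⟩
  have hpd : ∀ q i (z : Fin (m + 1) → ℝ), |pd i (hq h q) z| ≤ M' := by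
    intro q i z
    rw [hq_pd hh, abs_mul]
    have := hMa' (z (Fin.last m) - q)
    have h5 := hdl i
    nlinarith [abs_nonneg (deriv h (z (Fin.last m) - q)), abs_nonneg (dl i)]
  have hwg : ∀ q a, WGradC (fun z => (hq h q z : ℂ) * u a z)
      (fun i z => (hq h q z : ℂ) * g a i z + (pd i (hq h q) z : ℂ) * u a z) := fun q a =>
    wg_mul (hu a) (hq_contDiff hh q) (fun z => hMa _) (hpd q)
  have iΦ : ∀ q a i, Integrable (fun z : Fin (m + 1) → ℝ =>
      ‖(h (z (Fin.last m) - q) : ℂ) * g a i z +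
        ((deriv h (z (Fin.last m) - q) * dl i : ℝ) : ℂ) * u a z‖ ^ 2) volume := by
    intro q a i
    have e1 := ((hwg q a).g2 i).integrable_norm_pow two_ne_zero
    refine e1.congr (Eventually.of_forall fun z => ?_)
    simp only
    rw [hq_pd hh]
    rfl
  have hΦi : ∀ q, Integrable (Φ q) volume := by
    intro q
    rw [hΦ]
    exact integrable_finsetSum _ fun a _ => integrable_finsetSum _ fun i _ => iΦ q a i
  have hΦ0 : ∀ q z, 0 ≤ Φ q z := by
    intro q z
    rw [hΦ]
    exact Finset.sum_nonneg fun a _ => Finset.sum_nonneg fun i _ => by positivity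
  have step1 : ∀ q : ℝ, ENNReal.ofReal (LTd.Kcl (m + 1)) * ∫⁻ x : Fin m → ℝ,
      G (Fin.append x fun _ : Fin 1 => q) ≤ ∫⁻ z, ENNReal.ofReal (Φ q z) := by
    intro q
    have hsec : ∀ᵐ x : Fin m → ℝ, ∫⁻ y : Fin 1 → ℝ,
        ENNReal.ofReal (hq h q (Fin.append x y) ^ 2) ≤ ENNReal.ofReal 1 := by
      refine Eventually.of_forall fun x => le_of_eq ?_
      have e1 : ∀ y : Fin 1 → ℝ, ENNReal.ofReal (hq h q (Fin.append x y) ^ 2) =
          (fun s => ENNReal.ofReal (h (s - q) ^ 2)) (y 0) := by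
        intro y
        unfold hq
        rw [append_last]
      simp only [e1]
      rw [lint1 (fun s => ENNReal.ofReal (h (s - q) ^ 2))]
      rw [lintegral_sub_right_eq_self (fun s => ENNReal.ofReal (h s ^ 2)) q]
      rw [← ofReal_integral_eq_lintegral_ofReal (int_sq hc hs)
        (Eventually.of_forall fun _ => sq_nonneg _), h2n]
    have e2 := h1 m 1 hm le_rfl 1 one_pos N (fun a z => (hq h q z : ℂ) * u a z)
      (fun a i z => (hq h q z : ℂ) * g a i z + (pd i (hq h q) z : ℂ) * u a z) (hwg q)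
      (fun z => ENNReal.ofReal (hq h q z ^ 2))
      (((hq_contDiff hh q).continuous.pow 2).measurable.ennreal_ofReal)
      (h2 (m + 1) N u (fun a => (hu a).f2) ho (hq h q) (hq_contDiff hh q).continuous.measurable
        ⟨M, fun z => hMa _⟩) hsec
    rw [Real.one_rpow, ENNReal.ofReal_one, one_mul] at e2
    have e3 : ∑ a, ∑ i, ∫ z, ‖(hq h q z : ℂ) * g a i z + (pd i (hq h q) z : ℂ) * u a z‖ ^ 2 =
        ∫ z, Φ q z := by
      rw [hΦ]
      rw [integral_finsetSum _ fun a _ => integrable_finsetSum _ fun i _ => iΦ q a i]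
      refine Finset.sum_congr rfl fun a _ => ?_
      rw [integral_finsetSum _ fun i _ => iΦ q a i]
      refine Finset.sum_congr rfl fun i _ => ?_
      refine integral_congr_ae (Eventually.of_forall fun z => ?_)
      simp only
      rw [hq_pd hh]
      rfl
    rw [e3, ofReal_integral_eq_lintegral_ofReal (hΦi q) (Eventually.of_forall (hΦ0 q))] at e2
    refine le_trans (le_of_eq ?_) e2
    congr 1
    refine lintegral_congr fun x => ?_
    rw [hG]
    simp only
    rw [← hp]
    congr 1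
    have e4 : ∀ y : Fin 1 → ℝ, ENNReal.ofReal (∑ a, ‖(hq h q (Fin.append x y) : ℂ) *
        u a (Fin.append x y)‖ ^ 2) = (fun s => ENNReal.ofReal (h (s - q) ^ 2 * ∑ a,
          ‖u a (Fin.append x fun _ : Fin 1 => s)‖ ^ 2)) (y 0) := by
      intro y
      have ey : y = fun _ : Fin 1 => y 0 := by
        funext j
        rw [Subsingleton.elim j 0]
      simp only
      rw [← ey, Finset.mul_sum]
      congr 1
      refine Finset.sum_congr rfl fun a _ => ?_
      unfold hq
      rw [append_last, norm_mul, Complex.norm_real, mul_pow, Real.norm_eq_abs, sq_abs]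
    simp only [e4]
    rw [lint1 (fun s => ENNReal.ofReal (h (s - q) ^ 2 * ∑ a,
          ‖u a (Fin.append x fun _ : Fin 1 => s)‖ ^ 2)),
      ← lintegral_add_left_eq_self (fun s => ENNReal.ofReal (h (s - q) ^ 2 * ∑ a,
          ‖u a (Fin.append x fun _ : Fin 1 => s)‖ ^ 2)) q]
    refine lintegral_congr fun t => ?_
    rw [add_sub_cancel_left]
    simp only [append_add]
  -- measurability
  have hqm : Measure.QuasiMeasurePreserving
      (fun w : (Fin (m + 1) → ℝ) × ℝ => w.1 + Pi.single (Fin.last m) w.2)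
      (volume.prod volume) volume := by
    refine QuasiMeasurePreserving.prod_of_left ?_ (Eventually.of_forall fun t => ?_)
    · exact measurable_fst.add ((measurable_pi_lambda _ fun i => by
        by_cases hi : i = Fin.last m
        · subst hi
          simpa using measurable_snd
        · simp [hi]))
    · exact (measurePreserving_add_right volume
        (Pi.single (Fin.last m) t : Fin (m + 1) → ℝ)).quasiMeasurePreserving
  have hGm : AEMeasurable G volume := by
    rw [hG]
    have e1 : AEMeasurable (fun w : (Fin (m + 1) → ℝ) × ℝ => ENNReal.ofReal (h w.2 ^ 2 *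
        ∑ a, ‖u a (w.1 + Pi.single (Fin.last m) w.2)‖ ^ 2)) (volume.prod volume) := by
      refine AEMeasurable.ennreal_ofReal (AEMeasurable.mul ?_
        (Finset.aemeasurable_fun_sum _ fun a _ => ?_))
      · exact ((hc.comp continuous_snd).pow 2).aemeasurable
      · exact ((((hu a).f2.1.comp_quasiMeasurePreserving hqm).norm).pow 2).aemeasurable
    exact e1.lintegral_prod_right'.pow_const p
  have hΦm : AEMeasurable (Function.uncurry fun q z => ENNReal.ofReal (Φ q z))
      ((volume : Measure ℝ).prod (volume : Measure (Fin (m + 1) → ℝ))) := by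
    rw [hΦ]
    have hsc : Continuous fun w : ℝ × (Fin (m + 1) → ℝ) => w.2 (Fin.last m) - w.1 :=
      ((continuous_apply _).comp continuous_snd).sub continuous_fst
    refine AEMeasurable.ennreal_ofReal (Finset.aemeasurable_fun_sum _ fun a _ =>
      Finset.aemeasurable_fun_sum _ fun i _ => AEStronglyMeasurable.aemeasurable ?_)
    refine ((AEStronglyMeasurable.add ?_ ?_).norm).pow 2
    · exact (Complex.continuous_ofReal.comp (hc.comp hsc)).aestronglyMeasurable.mul
        ((hu a).g2 i).1.comp_snd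
    · exact (Complex.continuous_ofReal.comp
        ((hd.comp hsc).mul continuous_const)).aestronglyMeasurable.mul (hu a).f2.1.comp_snd
  -- integration over `q`
  have step2 : ENNReal.ofReal (LTd.Kcl (m + 1)) * ∫⁻ z, G z ≤
      ∫⁻ q, ∫⁻ z, ENNReal.ofReal (Φ q z) := by
    have e1 : ∫⁻ z, G z = ∫⁻ q : ℝ, ∫⁻ x : Fin m → ℝ, G (Fin.append x fun _ : Fin 1 => q) := by
      rw [Q_tonelli (m := m) (n := 1) hGm]
      have e2 : AEMeasurable (Function.uncurry fun (x : Fin m → ℝ) (y : Fin 1 → ℝ) =>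
          G (Fin.append x y)) (volume.prod volume) :=
        hGm.comp_quasiMeasurePreserving (Q_mp m 1).quasiMeasurePreserving
      rw [lintegral_lintegral_swap e2]
      have e3 : ∀ y : Fin 1 → ℝ, ∫⁻ x : Fin m → ℝ, G (Fin.append x y) =
          (fun q => ∫⁻ x : Fin m → ℝ, G (Fin.append x fun _ : Fin 1 => q)) (y 0) := by
        intro y
        have ey : y = fun _ : Fin 1 => y 0 := by
          funext j
          rw [Subsingleton.elim j 0]
        simp only
        rw [← ey]
      rw [lintegral_congr e3]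
      exact lint1 (fun q => ∫⁻ x : Fin m → ℝ, G (Fin.append x fun _ : Fin 1 => q))
    rw [e1, ← lintegral_const_mul' _ _ ENNReal.ofReal_ne_top]
    exact lintegral_mono step1
  have hu2 : ∀ a, ∫ z, ‖u a z‖ ^ 2 = 1 := by
    intro a
    have e1 := ho a a
    rw [if_pos rfl] at e1
    have e2 : ∫ z, (starRingEnd ℂ) (u a z) * u a z = ((∫ z, ‖u a z‖ ^ 2 : ℝ) : ℂ) := by
      rw [← integral_complex_ofReal]
      refine integral_congr_ae (Eventually.of_forall fun z => ?_)
      simp only
      rw [mul_comm, Complex.mul_conj, Complex.normSq_eq_norm_sq]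
    rw [e2] at e1
    exact_mod_cast e1
  obtain ⟨L, hL⟩ : ∃ L : ℝ, L = ∫ t, deriv h t ^ 2 := ⟨_, rfl⟩
  have hL0 : 0 ≤ L := by
    rw [hL]
    exact integral_nonneg fun _ => sq_nonneg _
  have step3 : ∫⁻ q, ∫⁻ z, ENNReal.ofReal (Φ q z) =
      ENNReal.ofReal ((∑ a, ∑ i, ∫ z, ‖g a i z‖ ^ 2) + N * L) := by
    rw [lintegral_lintegral_swap hΦm]
    have e1 : ∀ z, ∫⁻ q, ENNReal.ofReal (Φ q z) =
        ENNReal.ofReal (∑ a, ∑ i, (‖g a i z‖ ^ 2 + dl i ^ 2 * ‖u a z‖ ^ 2 * L)) := by
      intro z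
      have e2 : Integrable (fun q => Φ q z) volume := by
        rw [hΦ]
        exact integrable_finsetSum _ fun a _ => integrable_finsetSum _ fun i _ =>
          (int1 hh hs h2n _ _ _ _).1
      rw [← ofReal_integral_eq_lintegral_ofReal e2 (Eventually.of_forall fun q => hΦ0 q z)]
      congr 1
      rw [hΦ]
      rw [integral_finsetSum _ fun a _ => integrable_finsetSum _ fun i _ =>
          (int1 hh hs h2n _ _ _ _).1]
      refine Finset.sum_congr rfl fun a _ => ?_
      rw [integral_finsetSum _ fun i _ => (int1 hh hs h2n _ _ _ _).1]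
      refine Finset.sum_congr rfl fun i _ => ?_
      rw [(int1 hh hs h2n _ _ _ _).2, hL]
    simp only [e1]
    have ig : ∀ a i, Integrable (fun z => ‖g a i z‖ ^ 2) volume := fun a i =>
      ((hu a).g2 i).integrable_norm_pow two_ne_zero
    have iu : ∀ a (i : Fin (m + 1)), Integrable (fun z => dl i ^ 2 * ‖u a z‖ ^ 2 * L) volume :=
      fun a i => (((hu a).f2.integrable_norm_pow two_ne_zero).const_mul _).mul_const _
    have igu : ∀ a i, Integrable (fun z => ‖g a i z‖ ^ 2 + dl i ^ 2 * ‖u a z‖ ^ 2 * L) volume :=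
      fun a i => (ig a i).add (iu a i)
    have iS : Integrable (fun z => ∑ a, ∑ i, (‖g a i z‖ ^ 2 + dl i ^ 2 * ‖u a z‖ ^ 2 * L)) volume :=
      integrable_finsetSum _ fun a _ => integrable_finsetSum _ fun i _ => igu a i
    have nS : ∀ z, 0 ≤ ∑ a, ∑ i, (‖g a i z‖ ^ 2 + dl i ^ 2 * ‖u a z‖ ^ 2 * L) := fun z =>
      Finset.sum_nonneg fun a _ => Finset.sum_nonneg fun i _ =>
        add_nonneg (by positivity) (mul_nonneg (by positivity) hL0)
    rw [← ofReal_integral_eq_lintegral_ofReal iS (Eventually.of_forall nS)]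
    congr 1
    rw [integral_finsetSum _ fun a _ => integrable_finsetSum _ fun i _ => igu a i]
    have e5 : ∀ a, ∫ z, ∑ i, (‖g a i z‖ ^ 2 + dl i ^ 2 * ‖u a z‖ ^ 2 * L) =
        (∑ i, ∫ z, ‖g a i z‖ ^ 2) + L := by
      intro a
      rw [integral_finsetSum _ fun i _ => igu a i]
      have e6 : ∀ i : Fin (m + 1), ∫ z, (‖g a i z‖ ^ 2 + dl i ^ 2 * ‖u a z‖ ^ 2 * L) =
          (∫ z, ‖g a i z‖ ^ 2) + dl i ^ 2 * L := by
        intro i
        rw [integral_add (ig a i) (iu a i), integral_mul_const, integral_const_mul, hu2, mul_one]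
      simp only [e6]
      rw [Finset.sum_add_distrib, ← Finset.sum_mul, dl_sum, one_mul]
    simp only [e5]
    rw [Finset.sum_add_distrib]
    simp
  rw [step3, hL, hG, hp] at step2
  exact step2

end

end Pool.Agent.W2helper90.SM
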