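import Pool.Agent.W2helper90.SM.FUB
import Pool.Agent.Helper717.LT.P_cutoff

/-!
# Project SM (helper93): test functions and multipliers of class `C¹` for weak gradients
-/

set_option autoImplicit false

open MeasureTheory Set Filter Topology

open scoped Convolution

namespace Pool.Agent.W2helper93.SMP

noncomputable section

open LTd (pd WGradC)

/-- the bumps -/
def bp (d n : ℕ) : ContDiffBump (0 : Fin d → ℝ) :=
  ⟨1 / (2 * ((n : ℝ) + 1)), 1 / ((n : ℝ) + 1), by positivity, by
    rw [div_lt_div_iff₀ (by positivity) (by positivity)]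
    nlinarith [(Nat.cast_nonneg n : (0 : ℝ) ≤ n)]⟩

theorem bp_rOut (d n : ℕ) : (bp d n).rOut = 1 / ((n : ℝ) + 1) := rfl

theorem bp_rOut_le (d n : ℕ) : (bp d n).rOut ≤ 1 := by
  rw [bp_rOut, div_le_one (by positivity)]
  linarith [(Nat.cast_nonneg n : (0 : ℝ) ≤ n)]

theorem bp_tend (d : ℕ) : Tendsto (fun n => (bp d n).rOut) atTop (𝓝 0) := by
  simp only [bp_rOut]
  exact tendsto_one_div_add_atTop_nhds_zero_nat

/-- the mollified function -/
def mol {d : ℕ} (n : ℕ) (F : (Fin d → ℝ) → ℝ) : (Fin d → ℝ) → ℝ :=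
  (bp d n).normed volume ⋆[ContinuousLinearMap.lsmul ℝ ℝ, volume] F

theorem mol_contDiff {d : ℕ} (n : ℕ) {F : (Fin d → ℝ) → ℝ} (hF : Continuous F) :
    ContDiff ℝ (⊤ : ℕ∞) (mol n F) :=
  (bp d n).hasCompactSupport_normed.contDiff_convolution_left _ (bp d n).contDiff_normed
    hF.locallyIntegrable

theorem mol_supp {d : ℕ} (n : ℕ) {F : (Fin d → ℝ) → ℝ} (hF : HasCompactSupport F) :
    HasCompactSupport (mol n F) :=
  (bp d n).hasCompactSupport_normed.convolution _ hF

theorem mol_pd {d : ℕ} (n : ℕ) {F : (Fin d → ℝ) → ℝ} (hF : ContDiff ℝ 1 F)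
    (hs : HasCompactSupport F) (k : Fin d) (x : Fin d → ℝ) :
    pd k (mol n F) x = mol n (pd k F) x := by
  have hloc : LocallyIntegrable ((bp d n).normed volume) volume :=
    (bp d n).continuous_normed.locallyIntegrable
  have h1 := hs.hasFDerivAt_convolution_right (ContinuousLinearMap.lsmul ℝ ℝ) hloc hF x
  have h2 : ConvolutionExistsAt ((bp d n).normed volume) (fderiv ℝ F) x
      ((ContinuousLinearMap.lsmul ℝ ℝ : ℝ →L[ℝ] ℝ →L[ℝ] ℝ).precompR (Fin d → ℝ)) volume :=
    (hs.fderiv ℝ).convolutionExists_right _ hloc (hF.continuous_fderiv (by norm_num)) x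
  unfold pd mol
  rw [h1.fderiv]
  unfold convolution
  rw [ContinuousLinearMap.integral_apply h2]
  refine integral_congr_ae (Eventually.of_forall fun t => ?_)
  simp [ContinuousLinearMap.precompR_apply]

theorem mol_tend {d : ℕ} {F : (Fin d → ℝ) → ℝ} (hF : Continuous F) (x : Fin d → ℝ) :
    Tendsto (fun n => mol n F x) atTop (𝓝 (F x)) :=
  ContDiffBump.convolution_tendsto_right_of_continuous (bp_tend d) hF x

theorem mol_bound {d : ℕ} (n : ℕ) {F : (Fin d → ℝ) → ℝ} (hF : Continuous F) {M : ℝ}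
    (hM : ∀ x, |F x| ≤ M) (x : Fin d → ℝ) : |mol n F x| ≤ 3 * M := by
  have h := ContDiffBump.dist_normed_convolution_le (φ := bp d n) (μ := volume) (x₀ := x) (g := F)
    (ε := 2 * M) hF.aestronglyMeasurable (fun y _ => by
      rw [Real.dist_eq]
      calc |F y - F x| ≤ |F y| + |F x| := abs_sub _ _
        _ ≤ 2 * M := by linarith [hM y, hM x])
  rw [Real.dist_eq] at h
  change |mol n F x - F x| ≤ 2 * M at h
  calc |mol n F x| = |(mol n F x - F x) + F x| := by ring_nf
    _ ≤ |mol n F x - F x| + |F x| := abs_add_le _ _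
    _ ≤ 3 * M := by linarith [hM x]

theorem mol_zero {d : ℕ} (n : ℕ) {F : (Fin d → ℝ) → ℝ} (hF : Continuous F) {R : ℝ}
    (hR : ∀ x, R < ‖x‖ → F x = 0) (x : Fin d → ℝ) (hx : R + 1 < ‖x‖) : mol n F x = 0 := by
  have h := ContDiffBump.dist_normed_convolution_le (φ := bp d n) (μ := volume) (x₀ := x) (g := F)
    (ε := 0) hF.aestronglyMeasurable (fun y hy => by
      have h1 : dist y x < 1 := lt_of_lt_of_le (Metric.mem_ball.1 hy) (bp_rOut_le d n)
      have h2 : R < ‖y‖ := by
        have h3 : ‖x‖ ≤ ‖y‖ + ‖x - y‖ := by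
          calc ‖x‖ = ‖y + (x - y)‖ := by simp
            _ ≤ _ := norm_add_le _ _
        rw [dist_comm, dist_eq_norm] at h1
        linarith
      rw [hR y h2, hR x (by linarith), dist_self])
  have h4 : F x = 0 := hR x (by linarith)
  rw [h4, Real.dist_eq, sub_zero] at h
  exact abs_eq_zero.1 (le_antisymm h (abs_nonneg _))

/-- a bound for the support -/
theorem supp_ball {d : ℕ} {F : (Fin d → ℝ) → ℝ} (hs : HasCompactSupport F) :
    ∃ R : ℝ, ∀ x, R < ‖x‖ → F x = 0 := by
  obtain ⟨R, hR⟩ := hs.isCompact.isBounded.exists_norm_le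
  refine ⟨R, fun x hx => ?_⟩
  by_contra hne
  have := hR x (subset_tsupport _ hne)
  linarith

theorem mol_int {d : ℕ} {u : (Fin d → ℝ) → ℂ} (hu : LocallyIntegrable u volume)
    {F : (Fin d → ℝ) → ℝ} (hF : Continuous F) (hs : HasCompactSupport F) :
    Tendsto (fun n => ∫ x, u x * (mol n F x : ℂ)) atTop (𝓝 (∫ x, u x * (F x : ℂ))) := by
  obtain ⟨M, hM⟩ := hF.bounded_above_of_compact_support hs
  obtain ⟨R, hR⟩ := supp_ball hs
  have hi : Integrable ((Metric.closedBall (0 : Fin d → ℝ) (R + 1)).indicator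
      fun x => ‖u x‖ * (3 * M)) volume := by
    rw [integrable_indicator_iff Metric.isClosed_closedBall.measurableSet]
    exact ((hu.integrableOn_isCompact (isCompact_closedBall _ _)).norm).mul_const _
  refine tendsto_integral_of_dominated_convergence _ (fun n => ?_) hi
    (fun n => Eventually.of_forall fun x => ?_) (Eventually.of_forall fun x => ?_)
  · exact hu.aestronglyMeasurable.mul
      (Complex.continuous_ofReal.comp (mol_contDiff n hF).continuous).aestronglyMeasurable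
  · by_cases hx : x ∈ Metric.closedBall (0 : Fin d → ℝ) (R + 1)
    · rw [indicator_of_mem hx, norm_mul, Complex.norm_real]
      exact mul_le_mul_of_nonneg_left (mol_bound n hF hM x) (norm_nonneg _)
    · rw [indicator_of_notMem hx]
      rw [Metric.mem_closedBall, dist_zero_right, not_le] at hx
      rw [mol_zero n hF hR x hx]
      simp
  · exact ((Complex.continuous_ofReal.tendsto _).comp (mol_tend hF x)).const_mul _

/-- test functions of class `C¹` -/
theorem weak1 {d : ℕ} {u : (Fin d → ℝ) → ℂ} {g : Fin d → (Fin d → ℝ) → ℂ} (hu : WGradC u g)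
    (k : Fin d) {φ : (Fin d → ℝ) → ℝ} (hφ : ContDiff ℝ 1 φ) (hs : HasCompactSupport φ) :
    ∫ x, u x * (pd k φ x : ℂ) = - ∫ x, g k x * (φ x : ℂ) := by
  have hc : Continuous (pd k φ) :=
    (hφ.continuous_fderiv (by norm_num)).clm_apply continuous_const
  have hcs : HasCompactSupport (pd k φ) := hs.fderiv_apply ℝ _
  have h1 := mol_int (hu.f2.locallyIntegrable (by norm_num)) hc hcs
  have h2 := (mol_int ((hu.g2 k).locallyIntegrable (by norm_num)) hφ.continuous hs).neg
  have h3 : (fun n => ∫ x, u x * (mol n (pd k φ) x : ℂ)) =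
      fun n => - ∫ x, g k x * (mol n φ x : ℂ) := by
    funext n
    rw [← hu.weak k (mol n φ) (mol_contDiff n hφ.continuous) (mol_supp n hs)]
    refine integral_congr_ae (Eventually.of_forall fun x => ?_)
    simp only
    rw [mol_pd n hφ hs]
  rw [h3] at h1
  exact tendsto_nhds_unique h1 h2

theorem pd_mul {d : ℕ} {χ φ : (Fin d → ℝ) → ℝ} (hχ : ContDiff ℝ 1 χ) (hφ : ContDiff ℝ 1 φ)
    (k : Fin d) (x : Fin d → ℝ) :
    pd k (fun z => χ z * φ z) x = χ x * pd k φ x + φ x * pd k χ x := by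
  unfold pd
  have h1 : HasFDerivAt χ (fderiv ℝ χ x) x := (hχ.differentiable (by norm_num) x).hasFDerivAt
  have h2 : HasFDerivAt φ (fderiv ℝ φ x) x := (hφ.differentiable (by norm_num) x).hasFDerivAt
  have h3 : HasFDerivAt (fun z => χ z * φ z) (χ x • fderiv ℝ φ x + φ x • fderiv ℝ χ x) x :=
    h1.mul h2
  rw [h3.fderiv]
  simp

theorem pd_cont {d : ℕ} {χ : (Fin d → ℝ) → ℝ} (hχ : ContDiff ℝ 1 χ) (k : Fin d) :
    Continuous (pd k χ) :=
  (hχ.continuous_fderiv (by norm_num)).clm_apply continuous_const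

/-- the product with a bounded continuous function -/
theorem memLp_mul {d : ℕ} {u : (Fin d → ℝ) → ℂ} (hu : MemLp u 2 volume) {χ : (Fin d → ℝ) → ℝ}
    (hχ : Continuous χ) {C : ℝ} (hC : ∀ z, |χ z| ≤ C) :
    MemLp (fun z => (χ z : ℂ) * u z) 2 volume := by
  refine MemLp.of_le_mul (c := C) hu
    ((Complex.continuous_ofReal.comp hχ).aestronglyMeasurable.mul hu.1)
    (Eventually.of_forall fun z => ?_)
  rw [norm_mul, Complex.norm_real]
  exact mul_le_mul_of_nonneg_right (hC z) (norm_nonneg _)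

/-- **the product rule** -/
theorem wg_mul {d : ℕ} {u : (Fin d → ℝ) → ℂ} {g : Fin d → (Fin d → ℝ) → ℂ} (hu : WGradC u g)
    {χ : (Fin d → ℝ) → ℝ} (hχ : ContDiff ℝ 1 χ) {C C' : ℝ} (hC : ∀ z, |χ z| ≤ C)
    (hC' : ∀ k z, |pd k χ z| ≤ C') :
    WGradC (fun z => (χ z : ℂ) * u z)
      (fun k z => (χ z : ℂ) * g k z + (pd k χ z : ℂ) * u z) := by
  refine ⟨memLp_mul hu.f2 hχ.continuous hC, fun k => (memLp_mul (hu.g2 k) hχ.continuous hC).add
    (memLp_mul hu.f2 (pd_cont hχ k) (hC' k)), fun k φ hφ hs => ?_⟩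
  have hφ1 : ContDiff ℝ 1 φ := hφ.of_le (by exact_mod_cast le_top)
  have h1 := weak1 hu k (φ := fun z => χ z * φ z) (hχ.mul hφ1) (hs.mul_left)
  have hl1 : LocallyIntegrable u volume := hu.f2.locallyIntegrable (by norm_num)
  have hl2 : LocallyIntegrable (g k) volume := (hu.g2 k).locallyIntegrable (by norm_num)
  have key : ∀ {v : (Fin d → ℝ) → ℂ}, LocallyIntegrable v volume → ∀ {F : (Fin d → ℝ) → ℝ},
      Continuous F → HasCompactSupport F → Integrable (fun x => v x * (F x : ℂ)) volume := by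
    intro v hv F hF hFs
    have := hv.integrable_smul_right_of_hasCompactSupport
      (Complex.continuous_ofReal.comp hF) (hFs.comp_left (g := fun t : ℝ => (t : ℂ)) (by simp))
    simpa [smul_eq_mul] using this
  have i1 : Integrable (fun x => u x * ((χ x * pd k φ x : ℝ) : ℂ)) volume :=
    key hl1 (hχ.continuous.mul (pd_cont hφ1 k)) ((hs.fderiv_apply ℝ _).mul_left)
  have i2 : Integrable (fun x => u x * ((φ x * pd k χ x : ℝ) : ℂ)) volume :=
    key hl1 (hφ.continuous.mul (pd_cont hχ k)) hs.mul_right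
  have i3 : Integrable (fun x => g k x * ((χ x * φ x : ℝ) : ℂ)) volume :=
    key hl2 (hχ.continuous.mul hφ.continuous) hs.mul_left
  have e1 : ∫ x, u x * (pd k (fun z => χ z * φ z) x : ℂ) =
      (∫ x, u x * ((χ x * pd k φ x : ℝ) : ℂ)) + ∫ x, u x * ((φ x * pd k χ x : ℝ) : ℂ) := by
    rw [← integral_add i1 i2]
    refine integral_congr_ae (Eventually.of_forall fun x => ?_)
    simp only
    rw [pd_mul hχ hφ1]
    push_cast
    ring
  have e2 : ∫ x, ((χ x : ℂ) * g k x + (pd k χ x : ℂ) * u x) * (φ x : ℂ) =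
      (∫ x, g k x * ((χ x * φ x : ℝ) : ℂ)) + ∫ x, u x * ((φ x * pd k χ x : ℝ) : ℂ) := by
    rw [← integral_add i3 i2]
    refine integral_congr_ae (Eventually.of_forall fun x => ?_)
    simp only
    push_cast
    ring
  have e3 : ∫ x, (χ x : ℂ) * u x * (pd k φ x : ℂ) = ∫ x, u x * ((χ x * pd k φ x : ℝ) : ℂ) := by
    refine integral_congr_ae (Eventually.of_forall fun x => ?_)
    simp only
    push_cast
    ring
  rw [e3, e2]
  rw [e1] at h1
  rw [neg_add, ← h1]
  ring

end

end Pool.Agent.W2helper93.SMP
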